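import Pool.Agent.H8.DS.TarG

/-!
# MP_81a758_an: the derivative of a first return in terms of the weights
-/

namespace DS

open Set Data

theorem pf_FAC (hSTART : T_START) : T_FAC := by
  intro C S X w hX hw t y y' m hy hy' hst
  obtain ⟨c, z, r, h, g, hs, hh, -, -, hg, hQ, hm⟩ := hst
  have hone := deck_one X hX (X.comp y.1)
  have hcr := Start.cross (X := X) y.1 (1, 0, 0) y.2 hone hy.1 hy.2
  rw [act_one] at hcr
  obtain ⟨hc, hz, hr⟩ := hSTART C S X hX _ _ _ _ _ _ _ hs hcr
  subst hc hz
  have hQ1 : X.comp y'.1 = X.comp (X.glue y.1) := congrArg Prod.fst hQ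
  have hQ2 : X.pt y'.1 y'.2 = act g (fwd t (X.pt (X.glue y.1) y.2) h) := congrArg Prod.snd hQ
  have hb : X.b y'.1 = g.1 * (X.b (X.glue y.1) + h) + g.2.2 := by
    have := congrArg Prod.snd hQ2
    simpa [pt, act, fwd] using this
  have hl := hX.pos y.1
  have hrw : r * w y.1 = w (X.glue y.1) := by
    have h1 := hw.gl y.1
    rw [hr]
    simp only [one_mul]
    rw [div_mul_eq_mul_div, div_eq_iff hl.ne', ← h1]
    ring
  have hmw : m * w y.1 = g.1 * w (X.glue y.1) := by
    rw [hm, ← hrw]
    ring
  rw [hmw]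
  by_cases hH : X.Hopf (X.comp (X.glue y.1))
  · have key : g.1 * w (X.glue y.1) < w y'.1 := by
      obtain ⟨k, rfl⟩ := hg
      have hgood := hX.good (X.comp (X.glue y.1))
      cases hk : X.kind (X.comp (X.glue y.1)) with
      | flat e f =>
        unfold Hopf at hH
        rw [hk] at hH
        exact absurd hH (by simp [Comp.IsHopf])
      | hopf l =>
        rw [hk] at hgood
        simp only [Comp.Good] at hgood
        have hl0 : 0 < l := by linarith
        rw [hk] at hb
        simp only [Comp.el, add_zero] at hb ⊢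
        have hp : 0 < l ^ k.1 := zpow_pos hl0 _
        have hp' : 0 < l ^ (-k.1) := zpow_pos hl0 _
        have hpp : l ^ (-k.1) * l ^ k.1 = 1 := by
          rw [← zpow_add₀ hl0.ne']
          simp
        have h2 := hw.hopf (X.glue y.1) y'.1 l hQ1.symm hk (-k.1) (by
          rw [hb, ← mul_assoc, hpp, one_mul]
          linarith)
        have h3 := mul_lt_mul_of_pos_left h2 hp
        rw [← mul_assoc, mul_comm (l ^ k.1) (l ^ (-k.1)), hpp, one_mul] at h3
        exact h3
    exact ⟨key.le, fun _ => key⟩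
  · refine ⟨?_, fun h' => absurd h' hH⟩
    rw [deck_flat X hX _ hH g hg, one_mul]
    exact (hw.flat _ _ hQ1.symm hH).le

end DS
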