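import Pool.Agent.H8.DS.TarG

/-!
# MP_81a758_an: first returns are steps between slit points
-/

namespace DS

open Set Data

theorem pf_HS (hSTART : T_START) (hSLU : T_SLU) (hEQV : T_EQV) : T_HS := by
  intro C S X hX t y y' hy hy'
  have hone := deck_one X hX (X.comp y.1)
  have hcr := Start.cross (X := X) y.1 (1, 0, 0) y.2 hone hy.1 hy.2
  rw [act_one] at hcr
  constructor
  · rintro ⟨-, -, hc, g, hg, h, hh, hcl, heq⟩
    have hg0 : g.1 ≠ 0 := (deck_pos X hX _ g hg).ne'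
    refine ⟨_, X.comp (X.glue y.1), X.pt (X.glue y.1) y.2, _, h, ginv g, hcr, hh, hcl, ?_,
      hc ▸ deck_inv X hX _ g hg, ?_, rfl⟩
    · rw [heq]
      rw [← hc]
      rw [(hEQV C S X hX _ g hg (X.pt y'.1 y'.2)).2.2.2.1]
      have hone' := deck_one X hX (X.comp y'.1)
      refine ⟨?_, fun hH => hX.origin y'.1 hH y'.2 ⟨hy'.1.le, hy'.2.le⟩⟩
      rintro ⟨s, hs, g₁, hg₁, h1 | h1⟩
      · have h2 := hSLU C S X hX y'.1 s hs.symm (1, 0, 0) hone' g₁ hg₁ y'.2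
          ⟨hy'.1.le, hy'.2.le⟩ 0 ⟨le_rfl, zero_le_one⟩ (by rw [act_one]; exact h1)
        exact hy'.1.ne' h2.2.2
      · have h2 := hSLU C S X hX y'.1 s hs.symm (1, 0, 0) hone' g₁ hg₁ y'.2
          ⟨hy'.1.le, hy'.2.le⟩ 1 ⟨zero_le_one, le_rfl⟩ (by rw [act_one]; exact h1)
        exact hy'.2.ne h2.2.2
    · rw [heq, act_ginv g hg0]
      exact Prod.ext hc rfl
  · rintro ⟨m, c, z, r, h, g, hs, hh, hclear, hvalid, hg, hQ, hm⟩
    obtain ⟨hc, hz, -⟩ := hSTART C S X hX _ _ _ _ _ _ _ hs hcr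
    subst hc hz
    have hQ1 : X.comp y'.1 = X.comp (X.glue y.1) := congrArg Prod.fst hQ
    have hQ2 : X.pt y'.1 y'.2 = act g (fwd t (X.pt (X.glue y.1) y.2) h) := congrArg Prod.snd hQ
    have hg0 : g.1 ≠ 0 := (deck_pos X hX _ g hg).ne'
    refine ⟨hy, hy', hQ1, ginv g, ?_, h, hh, hclear, ?_⟩
    · rw [hQ1]
      exact deck_inv X hX _ g hg
    · rw [hQ2, act_ginv g hg0]

end DS
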