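import Pool.Agent.H8.DS.TarG
import Pool.Agent.H8.DS.TarK

/-!
# MP_81a758_an: a point with enough flat passes on both sides
-/

namespace DS

open Set Data

namespace K2A

variable {C S : Type} (X : Data C S) (t : ℝ)

theorem FC_snoc (n : ℕ) (y z z' : S × ℝ) (h : X.FC t n y z) (hh : X.Hit t z z')
    (hf : ¬ X.Hopf (X.comp (X.glue z.1))) : X.FC t (n + 1) y z' := by
  induction n generalizing y with
  | zero =>
    simp only [FC] at h
    subst h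
    exact ⟨z', hh, hf, rfl⟩
  | succ n ih =>
    obtain ⟨y₁, h1, h2, h3⟩ := h
    exact ⟨y₁, h1, h2, ih y₁ h3⟩

theorem FC_split (a b : ℕ) (y z : S × ℝ) (h : X.FC t (a + b) y z) :
    ∃ y₁, X.FC t a y y₁ ∧ X.FC t b y₁ z := by
  induction a generalizing y with
  | zero =>
    rw [Nat.zero_add] at h
    exact ⟨y, rfl, h⟩
  | succ a ih =>
    rw [Nat.succ_add] at h
    obtain ⟨y₁, h1, h2, h3⟩ := h
    obtain ⟨y₂, h4, h5⟩ := ih y₁ h3
    exact ⟨y₂, ⟨y₁, h1, h2, h4⟩, h5⟩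

theorem FC_HC (n : ℕ) (y z : S × ℝ) (h : X.FC t n y z) : X.HC t n y z := by
  induction n generalizing y with
  | zero => exact h
  | succ n ih =>
    obtain ⟨y₁, h1, -, h3⟩ := h
    exact ⟨y₁, h1, ih y₁ h3⟩

theorem FC_tgt (n : ℕ) (y z : S × ℝ) (h : X.FC t n y z) (hy : y.2 ∈ Ioo (0 : ℝ) 1) :
    z.2 ∈ Ioo (0 : ℝ) 1 := by
  induction n generalizing y with
  | zero =>
    simp only [FC] at h
    subst h
    exact hy
  | succ n ih =>
    obtain ⟨y₁, h1, -, h3⟩ := h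
    exact ih y₁ h3 h1.2.1

theorem FC_src (n : ℕ) (y z : S × ℝ) (h : X.FC t n z y) (hy : y.2 ∈ Ioo (0 : ℝ) 1) :
    z.2 ∈ Ioo (0 : ℝ) 1 := by
  cases n with
  | zero =>
    simp only [FC] at h
    subst h
    exact hy
  | succ n =>
    obtain ⟨y₁, h1, -, h3⟩ := h
    exact h1.1

end K2A

open K2A in
theorem pf_K2A (hHEX : T_HEX) (hFCO : T_FCO) : T_K2A := by
  intro C S _ X hX t ht N hN
  have part1 : ∀ y : S × ℝ, 0 < y.2 → y.2 < 1 → X.Gen t y → (∃ y', X.FC t N y y') →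
      (∃ y', X.FC t N y' y) → X.Rr t y := by
    intro y h0 h1 hg hf hb n
    have fw : ∀ k, ∃ z, X.FC t (N + k) y z := by
      intro k
      induction k with
      | zero => exact hf
      | succ k ih =>
        obtain ⟨z, hz⟩ := ih
        have hfl := (hN (N + k) (Nat.le_add_right _ _) y z hz).1
        have hz2 := FC_tgt X t _ _ _ hz ⟨h0, h1⟩
        rcases (hHEX C S X hX t ht z hz2).1 hfl with ⟨z', hz'⟩ | he
        · exact ⟨z', FC_snoc X t _ _ _ _ hz hz' hfl⟩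
        · exact absurd he (hg.1 _ _ (FC_HC X t _ _ _ hz))
    have bw : ∀ k, ∃ z, X.FC t (N + k) z y := by
      intro k
      induction k with
      | zero => exact hb
      | succ k ih =>
        obtain ⟨z, hz⟩ := ih
        have hfl := (hN (N + k) (Nat.le_add_right _ _) z y hz).2
        have hz2 := FC_src X t _ _ _ hz ⟨h0, h1⟩
        rcases (hHEX C S X hX t ht z hz2).2 hfl with ⟨z', hz'⟩ | he
        · refine ⟨z', z, hz', ?_, hz⟩
          rw [← hz'.2.2.1]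
          exact hfl
        · exact absurd he (hg.2 _ _ (FC_HC X t _ _ _ hz))
    constructor
    · obtain ⟨z, hz⟩ := fw n
      rw [Nat.add_comm] at hz
      obtain ⟨y₁, h2, -⟩ := FC_split X t _ _ _ _ hz
      exact ⟨y₁, h2⟩
    · obtain ⟨z, hz⟩ := bw n
      obtain ⟨y₁, -, h2⟩ := FC_split X t _ _ _ _ hz
      exact ⟨y₁, h2⟩
  refine ⟨part1, ?_⟩
  rintro y ⟨y₁, hf⟩ ⟨y₂, hb⟩ h0 h1
  obtain ⟨α₁, hα₁, ε₁, hε₁, H₁⟩ := hFCO C S X hX t N y y₁ hf
  obtain ⟨α₂, hα₂, ε₂, hε₂, H₂⟩ := hFCO C S X hX t N y₂ y hb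
  refine ⟨min (min ε₁ (ε₂ * α₂)) (min y.2 (1 - y.2)), ?_, ?_⟩
  · exact lt_min (lt_min hε₁ (mul_pos hε₂ hα₂)) (lt_min h0 (by linarith))
  · intro δ hδ hg
    obtain ⟨hδ1, hδ2⟩ := lt_min_iff.1 hδ
    obtain ⟨hδ3, hδ4⟩ := lt_min_iff.1 hδ1
    obtain ⟨hδ5, hδ6⟩ := lt_min_iff.1 hδ2
    have h2 := abs_lt.1 hδ5
    have h3 := abs_lt.1 hδ6
    refine part1 _ (by show 0 < y.2 + δ; linarith [h2.1]) (by show y.2 + δ < 1; linarith [h3.2]) hg
      ⟨_, H₁ δ hδ3⟩ ?_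
    have h4 := H₂ (δ / α₂) (by
      rw [abs_div, abs_of_pos hα₂, div_lt_iff₀ hα₂]
      exact hδ4)
    rw [mul_div_cancel₀ _ hα₂.ne'] at h4
    exact ⟨_, h4⟩

end DS
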